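import Pool.Agent.Helper23_LAP.Stmts

/-!
# Squad LAP, module FIN: the theorem from the recursion and its solution
-/

set_option autoImplicit false

namespace Pool.Agent.LAP.H9

open Pool.Agent.Helper14_LA Pool.Agent.LAX

theorem fin (hR : REKStmt) (hA : ANBStmt) : FINStmt := by
  obtain ⟨k₀, hk₀⟩ := hR
  obtain ⟨C, hC⟩ := hA Cov k₀ (28 * 3 ^ 19) (by
    intro k V _ G hG
    exact greedy (2 * k) _ G rfl hG) hk₀
  refine ⟨|C| + 1 / 2, ?_⟩
  intro V _ G Δ hΔ hG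
  obtain ⟨n, hn, hnb⟩ := hC ((Δ + 1) / 2) (by omega)
  refine ⟨n, hn V G fun v => (hG v).trans (by omega), ?_⟩
  set k := (Δ + 1) / 2 with hk
  have hkΔ : k ≤ Δ := by omega
  have hk1 : 1 ≤ k := by omega
  have hk2 : (k : ℝ) ≤ Δ / 2 + 1 / 2 := by
    have : 2 * k ≤ Δ + 1 := by omega
    have h5 : (2 : ℝ) * k ≤ Δ + 1 := by exact_mod_cast this
    linarith
  have hkr : (1 : ℝ) ≤ k := by exact_mod_cast hk1
  have hkΔr : (k : ℝ) ≤ Δ := by exact_mod_cast hkΔ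
  have hl0 : 0 ≤ Real.log k := Real.log_nonneg hkr
  have hl1 : Real.log k ≤ Real.log Δ := Real.log_le_log (by linarith) hkΔr
  have hm : (1 + Real.log k) ^ 20 ≤ (1 + Real.log Δ) ^ 20 :=
    pow_le_pow_left₀ (by linarith) (by linarith) 20
  have hone : (1 : ℝ) ≤ (1 + Real.log Δ) ^ 20 := one_le_pow₀ (by linarith)
  have h0 : 0 ≤ (1 + Real.log k) ^ 20 := by positivity
  have hc : C * (1 + Real.log k) ^ 20 ≤ |C| * (1 + Real.log Δ) ^ 20 :=
    (mul_le_mul_of_nonneg_right (le_abs_self C) h0).trans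
      (mul_le_mul_of_nonneg_left hm (abs_nonneg C))
  rw [add_mul]
  linarith

end Pool.Agent.LAP.H9
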